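import Mathlib
import Pool.Agent.helper25.NSI.Element

/-!
# A proper closed ideal containing an element `f` with `α(f) = 0`

There are a radical weight `ω` on `[0,∞)` (continuous, nonincreasing, `ω 0 = 1`) and a closed ideal
`I ≠ L¹(ω)` of `L¹(ω)` which contains a nonnegative function `f` not vanishing a.e. on any interval
`[0, β]`, `β > 0`.  Such an ideal is non-standard.
-/

open MeasureTheory Filter Topology Set

namespace Pool.Agent.Results.MP_6c344d_an.AlphaZeroIdeal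

/-- A radical weight on `[0,∞)`: continuous, positive, `ω 0 = 1`, submultiplicative,
`ω(t)^{1/t} → 0`. -/
def IsRadicalWeight (ω : ℝ → ℝ) : Prop :=
  ContinuousOn ω (Ici 0) ∧ ω 0 = 1 ∧ (∀ t : ℝ, 0 ≤ t → 0 < ω t) ∧
    (∀ s t : ℝ, 0 ≤ s → 0 ≤ t → ω (s + t) ≤ ω s * ω t) ∧
    Tendsto (fun t : ℝ => ω t ^ (1 / t)) atTop (𝓝 0)

/-- `f ∈ L¹(ω)`; functions on `[0,∞)` are extended by zero to the line. -/
def MemL1 (ω : ℝ → ℝ) (f : ℝ → ℂ) : Prop :=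
  (∀ t : ℝ, t < 0 → f t = 0) ∧ Integrable (fun t : ℝ => (ω t : ℂ) * f t) volume

/-- `I` is a closed ideal of the convolution algebra `L¹(ω)`. -/
def IsClosedIdeal (ω : ℝ → ℝ) (I : Set (ℝ → ℂ)) : Prop :=
  (∀ f ∈ I, MemL1 ω f) ∧ (0 : ℝ → ℂ) ∈ I ∧ (∀ f ∈ I, ∀ g ∈ I, f + g ∈ I) ∧
    (∀ c : ℂ, ∀ f ∈ I, c • f ∈ I) ∧
    (∀ f ∈ I, ∀ g : ℝ → ℂ, MemL1 ω g →
      convolution f g (ContinuousLinearMap.mul ℂ ℂ) volume ∈ I) ∧
    (∀ f : ℝ → ℂ, MemL1 ω f →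
      (∀ ε : ℝ, 0 < ε → ∃ g ∈ I, ∫ t, ‖(ω t : ℂ) * (f t - g t)‖ < ε) → f ∈ I)

open Pool.Agent.helper25.NSI in
/-- **Theorem.** There are a nonincreasing radical weight `ω`, a closed ideal `I` of `L¹(ω)` and a
nonnegative `f ∈ I` such that `f` is not a.e. zero on `[0, β]` for any `β > 0`, and `I ≠ L¹(ω)`. -/
theorem result :
    ∃ ω : ℝ → ℝ, IsRadicalWeight ω ∧ AntitoneOn ω (Ici 0) ∧
      ∃ (I : Set (ℝ → ℂ)) (f : ℝ → ℝ), IsClosedIdeal ω I ∧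
        (∀ t : ℝ, 0 ≤ f t) ∧ (fun t => (f t : ℂ)) ∈ I ∧
        (∀ β : ℝ, 0 < β → ¬ ∀ᵐ t : ℝ, t ∈ Icc 0 β → f t = 0) ∧
        ∃ g : ℝ → ℂ, MemL1 ω g ∧ g ∉ I := by
  refine ⟨omega, ⟨omega_isW.cont.continuousOn, omega_isW.one 0 le_rfl,
    fun t _ => omega_isW.pos t, fun s t hs ht => omega_isW.sub s t hs ht, omega_radical⟩,
    omega_isW.anti.antitoneOn _, annI omega phi, hh, ⟨fun f hf => hf.1, zero_mem, ?_, ?_, ?_, ?_⟩,
    hh_nonneg, hh_mem, ?_, _, ind_inL, ind_not_mem⟩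
  · intro f hf g hg
    exact add_mem omega_isW phi_measurable abs_phi_le hf hg
  · intro c f hf
    exact smul_mem hf c
  · intro f hf g hg
    exact conv_mem omega_isW phi_measurable abs_phi_le hf hg
  · intro f hf h
    exact closed_mem omega_isW phi_measurable abs_phi_le hf h
  · intro β hβ h
    apply hh_not_ae hβ
    filter_upwards [h] with t ht h2
    rw [ht h2, Complex.ofReal_zero]

end Pool.Agent.Results.MP_6c344d_an.AlphaZeroIdeal
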